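import Mathlib

set_option autoImplicit false

namespace Pool.Agent.Helper846

section compact

variable {E : Type*} [Ring E]

/-- A coset of a submodule. -/
def IsCoset (E : Type*) [Ring E] {P : Type*} [AddCommGroup P] [Module E P] (C : Set P) : Prop :=
  ∃ (W : Submodule E P) (c : P), C = {x | x - c ∈ W}

theorem IsCoset.sInter {P : Type*} [AddCommGroup P] [Module E P] (𝒟 : Set (Set P))
    (h : ∀ C ∈ 𝒟, IsCoset E C) (hne : (⋂₀ 𝒟).Nonempty) : IsCoset E (⋂₀ 𝒟) := by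
  obtain ⟨x₀, hx₀⟩ := hne
  have h' : ∀ C : 𝒟, ∃ W : Submodule E P, (C : Set P) = {x | x - x₀ ∈ W} := by
    rintro ⟨C, hC⟩
    obtain ⟨W, c, hW⟩ := h C hC
    refine ⟨W, ?_⟩
    have h0 : x₀ - c ∈ W := by
      have := hx₀ C hC
      rw [hW] at this
      exact this
    ext x
    show x ∈ C ↔ x - x₀ ∈ W
    rw [hW]
    constructor
    · intro hx
      have : x - x₀ = (x - c) - (x₀ - c) := by abel
      show x - x₀ ∈ W
      rw [this]
      exact W.sub_mem hx h0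
    · intro hx
      have : x - c = (x - x₀) + (x₀ - c) := by abel
      show x - c ∈ W
      rw [this]
      exact W.add_mem hx h0
  choose W hW using h'
  refine ⟨⨅ C, W C, x₀, ?_⟩
  ext x
  simp only [Set.mem_sInter, Set.mem_ofPred_eq, Submodule.mem_iInf]
  constructor
  · intro hx C
    have := hx C.1 C.2
    rw [hW C] at this
    exact this
  · intro hx C hC
    have := hx ⟨C, hC⟩
    have h2 := hW ⟨C, hC⟩
    simp only at h2
    rw [h2]
    exact this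

theorem IsCoset.image {P Q : Type*} [AddCommGroup P] [Module E P] [AddCommGroup Q] [Module E Q]
    (π : P →ₗ[E] Q) {C : Set P} (h : IsCoset E C) : IsCoset E (π '' C) := by
  obtain ⟨W, c, rfl⟩ := h
  refine ⟨W.map π, π c, ?_⟩
  ext y
  constructor
  · rintro ⟨x, hx, rfl⟩
    refine ⟨x - c, hx, by simp⟩
  · rintro ⟨w, hw, hwy⟩
    refine ⟨w + c, by simpa using hw, ?_⟩
    rw [map_add, hwy]; abel

/-- finite intersection property -/
def FIP {P : Type*} (𝒰 : Set (Set P)) : Prop :=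
  ∀ 𝒟 : Set (Set P), 𝒟 ⊆ 𝒰 → 𝒟.Finite → (⋂₀ 𝒟).Nonempty

theorem lin_compact {M : Type*} [AddCommGroup M] [Module E M] [IsArtinian E M] {V : Type*}
    (𝒞 : Set (Set (V → M))) (hcoset : ∀ C ∈ 𝒞, IsCoset E C)
    (hfin : ∀ C ∈ 𝒞, ∃ F : Finset V, ∀ x y : V → M, (∀ i ∈ F, x i = y i) → x ∈ C → y ∈ C)
    (hfip : FIP 𝒞) : (⋂₀ 𝒞).Nonempty := by
  classical
  -- maximal family
  obtain ⟨𝒰, hsub, hmax⟩ := zorn_subset_nonempty
    {𝒰 : Set (Set (V → M)) | (∀ C ∈ 𝒰, IsCoset E C) ∧ FIP 𝒰} (by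
      intro c hc hchain hne
      refine ⟨⋃₀ c, ⟨?_, ?_⟩, fun s hs => Set.subset_sUnion_of_mem hs⟩
      · rintro C ⟨s, hs, hC⟩
        exact (hc hs).1 C hC
      · intro 𝒟 h𝒟 hfinite
        obtain ⟨s, hs, hs'⟩ := DirectedOn.exists_mem_subset_of_finite_of_subset_sUnion hne
          hchain.directedOn hfinite h𝒟
        exact (hc hs).2 𝒟 hs' hfinite) 𝒞 ⟨hcoset, hfip⟩
  have hU : (∀ C ∈ 𝒰, IsCoset E C) ∧ FIP 𝒰 := hmax.1
  have key : ∀ i : V, ∃ b : M, {x : V → M | x i = b} ∈ 𝒰 := by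
    intro i
    let π : (V → M) →ₗ[E] M := LinearMap.proj i
    have hWF : WellFounded ((· < ·) : Submodule E M → Submodule E M → Prop) :=
      wellFounded_lt
    let S : Set (Submodule E M) := {W | ∃ 𝒟 : Set (Set (V → M)), 𝒟 ⊆ 𝒰 ∧ 𝒟.Finite ∧
      ∃ c : M, π '' (⋂₀ 𝒟) = {y | y - c ∈ W}}
    have hcos : ∀ 𝒟 : Set (Set (V → M)), 𝒟 ⊆ 𝒰 → 𝒟.Finite → IsCoset E (π '' (⋂₀ 𝒟)) :=
      fun 𝒟 h1 h2 => IsCoset.image π (IsCoset.sInter 𝒟 (fun C hC => hU.1 C (h1 hC)) (hU.2 𝒟 h1 h2))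
    have hSne : S.Nonempty := by
      obtain ⟨W, c, hW⟩ := hcos ∅ (Set.empty_subset _) Set.finite_empty
      exact ⟨W, ∅, Set.empty_subset _, Set.finite_empty, c, hW⟩
    obtain ⟨W₀, ⟨𝒟₀, hD0, hD0f, c₀, hc₀⟩, hmin⟩ := hWF.has_min S hSne
    have hall : ∀ 𝒟 : Set (Set (V → M)), 𝒟 ⊆ 𝒰 → 𝒟.Finite → π '' (⋂₀ 𝒟₀) ⊆ π '' (⋂₀ 𝒟) := by
      intro 𝒟 h1 h2
      obtain ⟨W', c', hW'⟩ := hcos (𝒟₀ ∪ 𝒟) (Set.union_subset hD0 h1) (hD0f.union h2)
      have hsubset : π '' (⋂₀ (𝒟₀ ∪ 𝒟)) ⊆ π '' (⋂₀ 𝒟₀) :=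
        Set.image_mono (Set.sInter_subset_sInter Set.subset_union_left)
      have hc'mem : c' ∈ π '' (⋂₀ (𝒟₀ ∪ 𝒟)) := by rw [hW']; simp
      have hc'mem2 : c' - c₀ ∈ W₀ := by
        have := hsubset hc'mem
        rw [hc₀] at this; exact this
      have hle : W' ≤ W₀ := by
        intro w hw
        have h3 : w + c' ∈ π '' (⋂₀ (𝒟₀ ∪ 𝒟)) := by rw [hW']; simpa using hw
        have h4 := hsubset h3
        rw [hc₀] at h4
        have : w = (w + c' - c₀) - (c' - c₀) := by abel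
        rw [this]
        exact W₀.sub_mem h4 hc'mem2
      have heq : W' = W₀ := by
        by_contra hne
        exact hmin W' ⟨𝒟₀ ∪ 𝒟, Set.union_subset hD0 h1, hD0f.union h2, c', hW'⟩ (lt_of_le_of_ne hle hne)
      intro y hy
      rw [hc₀] at hy
      have h5 : y ∈ π '' (⋂₀ (𝒟₀ ∪ 𝒟)) := by
        rw [hW', heq]
        have : y - c' = (y - c₀) - (c' - c₀) := by abel
        show y - c' ∈ W₀
        rw [this]
        exact W₀.sub_mem hy hc'mem2
      exact Set.image_mono (Set.sInter_subset_sInter Set.subset_union_right) h5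
    have hne0 : (π '' (⋂₀ 𝒟₀)).Nonempty := (hU.2 𝒟₀ hD0 hD0f).image _
    obtain ⟨b, hb⟩ := hne0
    refine ⟨b, ?_⟩
    have hmem : insert {x : V → M | x i = b} 𝒰 ∈
        {𝒰 : Set (Set (V → M)) | (∀ C ∈ 𝒰, IsCoset E C) ∧ FIP 𝒰} := by
      refine ⟨?_, ?_⟩
      · intro C hC
        rcases Set.mem_insert_iff.1 hC with rfl | hC
        · refine ⟨LinearMap.ker π, fun _ => b, ?_⟩
          ext x
          simp [π, sub_eq_zero]
        · exact hU.1 C hC
      · intro 𝒟 h𝒟 hfinite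
        have h1 : 𝒟 \ {{x : V → M | x i = b}} ⊆ 𝒰 := by
          rintro C ⟨hC, hC'⟩
          rcases Set.mem_insert_iff.1 (h𝒟 hC) with rfl | h
          · exact absurd rfl hC'
          · exact h
        obtain ⟨x, hx, hxb⟩ := hall _ h1 (hfinite.subset Set.sdiff_subset) hb
        refine ⟨x, ?_⟩
        intro C hC
        by_cases hCb : C = {x : V → M | x i = b}
        · rw [hCb]; exact hxb
        · exact hx C ⟨hC, hCb⟩
    have := hmax.2 hmem (Set.subset_insert _ _)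
    exact this (Set.mem_insert _ _)
  choose b hb using key
  refine ⟨b, ?_⟩
  intro C hC
  obtain ⟨F, hF⟩ := hfin C hC
  have hD : (insert C ((fun i => {x : V → M | x i = b i}) '' (F : Set V))) ⊆ 𝒰 := by
    intro D hD
    rcases Set.mem_insert_iff.1 hD with rfl | ⟨i, _, rfl⟩
    · exact hsub hC
    · exact hb i
  obtain ⟨x, hx⟩ := hU.2 _ hD ((F.finite_toSet.image _).insert _)
  refine hF x b ?_ (hx C (Set.mem_insert _ _))
  intro i hi
  exact hx {x : V → M | x i = b i} (Set.mem_insert_of_mem _ ⟨i, hi, rfl⟩)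

end compact

end Pool.Agent.Helper846
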