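import Mathlib
import Pool.Agent.Helper846.Compact

set_option autoImplicit false

namespace Pool.Agent.Helper846

/-- indexed form of linear compactness -/
theorem lin_compact' {E : Type*} [Ring E] {M : Type*} [AddCommGroup M] [Module E M]
    [IsArtinian E M] {V J : Type*} (C : J → Set (V → M)) (hcoset : ∀ j, IsCoset E (C j))
    (hfin : ∀ j, ∃ F : Finset V, ∀ x y : V → M, (∀ i ∈ F, x i = y i) → x ∈ C j → y ∈ C j)
    (hfip : ∀ F : Finset J, ∃ x, ∀ j ∈ F, x ∈ C j) : ∃ x, ∀ j, x ∈ C j := by
  classical
  have h := lin_compact (E := E) (Set.range C) (by rintro _ ⟨j, rfl⟩; exact hcoset j)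
    (by rintro _ ⟨j, rfl⟩; exact hfin j) (by
      intro 𝒟 h1 h2
      have h3 : ∀ D : 𝒟, ∃ j, C j = D := fun D => h1 D.2
      choose k hk using h3
      have := h2.fintype
      obtain ⟨x, hx⟩ := hfip (Finset.univ.image k)
      refine ⟨x, fun D hD => ?_⟩
      have := hx (k ⟨D, hD⟩) (Finset.mem_image_of_mem _ (Finset.mem_univ _))
      rw [hk] at this
      exact this)
  obtain ⟨x, hx⟩ := h
  exact ⟨x, fun j => hx (C j) ⟨j, rfl⟩⟩

section

variable {R : Type*} [Ring R] {M : Type*} [AddCommGroup M] [Module R M]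

/-- multiplication by `r` is linear over the endomorphism ring -/
def lsm (r : R) : M →ₗ[Module.End R M] M where
  toFun := fun m => r • m
  map_add' := smul_add r
  map_smul' := fun e m => (map_smul e r m).symm

@[simp] theorem lsm_apply (r : R) (m : M) : (lsm r : M →ₗ[Module.End R M] M) m = r • m := rfl

variable (R M) in
/-- elementary relations -/
inductive Rel where
  | add : M → M → Rel
  | smul : R → M → Rel

/-- the defect of a function with respect to an elementary relation -/
def Rel.eval : Rel R M → ((M → M) →ₗ[Module.End R M] M)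
  | .add m n => (LinearMap.proj (m + n) : (M → M) →ₗ[Module.End R M] M) -
      LinearMap.proj m - LinearMap.proj n
  | .smul r m => (LinearMap.proj (r • m) : (M → M) →ₗ[Module.End R M] M) -
      (lsm r).comp (LinearMap.proj m)

@[simp] theorem Rel.eval_add (m n : M) (z : M → M) :
    (Rel.add m n : Rel R M).eval z = z (m + n) - z m - z n := rfl

@[simp] theorem Rel.eval_smul (r : R) (m : M) (z : M → M) :
    (Rel.smul r m : Rel R M).eval z = z (r • m) - r • z m := rfl

theorem Rel.eval_coe (ρ : Rel R M) (e : Module.End R M) : ρ.eval (fun m => e m) = 0 := by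
  cases ρ <;> simp

theorem Rel.exists_support (ρ : Rel R M) : ∃ F : Finset M, ∀ x y : M → M,
    (∀ i ∈ F, x i = y i) → ρ.eval x = ρ.eval y := by
  classical
  cases ρ with
  | add m n =>
    refine ⟨{m + n, m, n}, fun x y h => ?_⟩
    simp only [Rel.eval_add]
    rw [h (m + n) (by simp), h m (by simp), h n (by simp)]
  | smul r m =>
    refine ⟨{r • m, m}, fun x y h => ?_⟩
    simp only [Rel.eval_smul]
    rw [h (r • m) (by simp), h m (by simp)]

/-- a function satisfying all elementary relations is linear -/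
def ofRel (z : M → M) (h : ∀ ρ : Rel R M, ρ.eval z = 0) : Module.End R M where
  toFun := z
  map_add' := fun m n => by
    have := h (Rel.add m n)
    simp only [Rel.eval_add] at this
    rw [sub_sub, sub_eq_zero] at this
    exact this
  map_smul' := fun r m => by
    have := h (Rel.smul r m)
    simp only [Rel.eval_smul] at this
    rw [sub_eq_zero] at this
    exact this

theorem isCoset_ker {E P Q : Type*} [Ring E] [AddCommGroup P] [Module E P] [AddCommGroup Q]
    [Module E Q] (f : P →ₗ[E] Q) (c : P) : IsCoset E {x | f x = f c} := by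
  refine ⟨LinearMap.ker f, c, ?_⟩
  ext x
  simp [sub_eq_zero]

theorem isCoset_comap {E P Q : Type*} [Ring E] [AddCommGroup P] [Module E P] [AddCommGroup Q]
    [Module E Q] (f : P →ₗ[E] Q) (W : Submodule E Q) (c : P) :
    IsCoset E {x | f x - f c ∈ W} := by
  refine ⟨W.comap f, c, ?_⟩
  ext x
  simp

/-- General compactness principle for endomorphisms: a family of conditions of the form
`e x - e₀ x ∈ W` is satisfiable by an endomorphism if every finite subfamily is. -/
theorem end_compact [IsArtinian (Module.End R M) M] {J : Type*} (x : J → M) (c : J → M)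
    (W : J → Submodule (Module.End R M) M)
    (h : ∀ F : Finset J, ∃ e : Module.End R M, ∀ j ∈ F, e (x j) - c j ∈ W j) :
    ∃ e : Module.End R M, ∀ j, e (x j) - c j ∈ W j := by
  classical
  let C : (Rel R M ⊕ J) → Set (M → M) := fun t => match t with
    | .inl ρ => {z | ρ.eval z = 0}
    | .inr j => {z | z (x j) - c j ∈ W j}
  obtain ⟨z, hz⟩ := lin_compact' (E := Module.End R M) C (by
    rintro (ρ | j)
    · have := isCoset_ker (E := Module.End R M) ρ.eval 0
      simpa [C] using this
    · have := isCoset_comap (E := Module.End R M)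
        (LinearMap.proj (x j) : (M → M) →ₗ[Module.End R M] M) (W j) (fun _ => c j)
      simpa [C] using this) (by
    rintro (ρ | j)
    · obtain ⟨F, hF⟩ := ρ.exists_support
      refine ⟨F, fun a b hab ha => ?_⟩
      show ρ.eval b = 0
      rw [← hF a b hab]; exact ha
    · refine ⟨{x j}, fun a b hab ha => ?_⟩
      show b (x j) - c j ∈ W j
      rw [← hab (x j) (by simp)]; exact ha) (by
    intro F
    obtain ⟨e, he⟩ := h (F.preimage Sum.inr (fun a _ b _ h => Sum.inr_injective h))
    refine ⟨fun m => e m, ?_⟩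
    rintro (ρ | j) hj
    · exact ρ.eval_coe e
    · exact he j (by simpa using hj))
  refine ⟨ofRel z (fun ρ => hz (Sum.inl ρ)), fun j => hz (Sum.inr j)⟩

/-- functions satisfying a finite set of relations -/
def ZZ (F : Finset (Rel R M)) : Submodule (Module.End R M) (M → M) :=
  ⨅ ρ ∈ F, LinearMap.ker (ρ.eval)

theorem mem_ZZ (F : Finset (Rel R M)) (z : M → M) : z ∈ ZZ F ↔ ∀ ρ ∈ F, ρ.eval z = 0 := by
  simp [ZZ, Submodule.mem_iInf]

/-- finitely many relations suffice -/
theorem exists_finite_relations [IsArtinian (Module.End R M) M] {ι : Type*} [Finite ι]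
    (a : ι → M) : ∃ F : Finset (Rel R M), ∀ z : M → M, (∀ ρ ∈ F, ρ.eval z = 0) →
      ∃ e : Module.End R M, ∀ i, e (a i) = z (a i) := by
  classical
  let res : (M → M) →ₗ[Module.End R M] (ι → M) := LinearMap.pi (fun i => LinearMap.proj (a i))
  let S : Set (Submodule (Module.End R M) (ι → M)) := Set.range (fun F => (ZZ F).map res)
  have hWF : WellFounded ((· < ·) : Submodule (Module.End R M) (ι → M) →
      Submodule (Module.End R M) (ι → M) → Prop) := wellFounded_lt
  obtain ⟨_, ⟨F₀, rfl⟩, hmin⟩ := hWF.has_min S ⟨_, ∅, rfl⟩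
  have hanti : ∀ F G : Finset (Rel R M), F ⊆ G → ZZ G ≤ ZZ F := by
    intro F G hFG z hz
    rw [mem_ZZ] at hz ⊢
    exact fun ρ hρ => hz ρ (hFG hρ)
  have hle : ∀ F : Finset (Rel R M), (ZZ F₀).map res ≤ (ZZ F).map res := by
    intro F
    have h1 : (ZZ (F₀ ∪ F)).map res ≤ (ZZ F₀).map res :=
      Submodule.map_mono (hanti _ _ Finset.subset_union_left)
    have h2 : (ZZ (F₀ ∪ F)).map res = (ZZ F₀).map res := by
      by_contra hne
      exact hmin _ ⟨F₀ ∪ F, rfl⟩ (lt_of_le_of_ne h1 hne)
    rw [← h2]
    exact Submodule.map_mono (hanti _ _ Finset.subset_union_right)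
  refine ⟨F₀, fun z hz => ?_⟩
  let C : (Rel R M ⊕ ι) → Set (M → M) := fun t => match t with
    | .inl ρ => {w | ρ.eval w = 0}
    | .inr i => {w | w (a i) = z (a i)}
  obtain ⟨w, hw⟩ := lin_compact' (E := Module.End R M) C (by
    rintro (ρ | j)
    · have := isCoset_ker (E := Module.End R M) ρ.eval 0
      simpa [C] using this
    · exact isCoset_ker (E := Module.End R M)
        (LinearMap.proj (a j) : (M → M) →ₗ[Module.End R M] M) z) (by
    rintro (ρ | j)
    · obtain ⟨F, hF⟩ := ρ.exists_support
      refine ⟨F, fun a b hab ha => ?_⟩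
      show ρ.eval b = 0
      rw [← hF a b hab]; exact ha
    · refine ⟨{a j}, fun u v huv hu => ?_⟩
      show v (a j) = z (a j)
      rw [← huv (a j) (by simp)]; exact hu) (by
    intro F
    have hz0 : res z ∈ (ZZ F₀).map res := ⟨z, (mem_ZZ _ _).2 hz, rfl⟩
    obtain ⟨w, hw, hwz⟩ := hle (F.preimage Sum.inl (fun a _ b _ h => Sum.inl_injective h)) hz0
    refine ⟨w, ?_⟩
    rintro (ρ | j) hj
    · exact (mem_ZZ _ _).1 hw ρ (by simpa using hj)
    · exact congrFun hwz j)
  exact ⟨ofRel w (fun ρ => hw (Sum.inl ρ)), fun i => hw (Sum.inr i)⟩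

end

end Pool.Agent.Helper846
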