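import Mathlib
import Pool.Agent.Helper846.Rel

set_option autoImplicit false

namespace Pool.Agent.Helper846

universe u

theorem extend_of_ker_le {E : Type u} [Ring E] {I : Type u} [AddCommGroup I] [Module E I]
    (hI : Module.Injective E I) {P Q : Type u} [AddCommGroup P] [Module E P] [AddCommGroup Q]
    [Module E Q] (f : P →ₗ[E] Q) (g : P →ₗ[E] I) (h : LinearMap.ker f ≤ LinearMap.ker g) :
    ∃ H : Q →ₗ[E] I, ∀ x, H (f x) = g x := by
  obtain ⟨H, hH⟩ := hI.out ((LinearMap.ker f).liftQ f le_rfl)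
    (LinearMap.ker_eq_bot.1 (Submodule.ker_liftQ_eq_bot _ _ _ le_rfl))
    ((LinearMap.ker f).liftQ g h)
  refine ⟨H, fun x => ?_⟩
  have := hH ((LinearMap.ker f).mkQ x)
  simpa using this

section

variable {R S : Type u} [Ring R] [Ring S] (φ : S ≃+* Rᵐᵒᵖ) {M : Type u} [AddCommGroup M]
  [Module R M] {I : Type u} [AddCommGroup I] [Module (Module.End R M) I]
  {N : Type u} [AddCommGroup N] [Module S N] (ε : N ≃+ (M →ₗ[Module.End R M] I))

/-- evaluation along a function `z` -/
noncomputable def ev (z : M → M) : (M →₀ N) →+ I :=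
  Finsupp.liftAddHom (fun m =>
    { toFun := fun h => ε h (z m)
      map_zero' := by simp
      map_add' := by simp })

@[simp] theorem ev_single (z : M → M) (m : M) (h : N) :
    ev ε z (Finsupp.single m h) = ε h (z m) := by
  simp [ev]

theorem ev_injective (c : M →₀ N) (h : ∀ z, ev ε z c = 0) : c = 0 := by
  classical
  ext m₀
  apply ε.injective
  rw [Finsupp.zero_apply, map_zero]
  ext y
  have h1 := h (Pi.single m₀ y)
  rw [ev, Finsupp.liftAddHom_apply] at h1
  rw [Finsupp.sum, Finset.sum_eq_single m₀] at h1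
  · simpa using h1
  · intro b _ hb
    simp [Pi.single_eq_of_ne hb]
  · intro hm
    rw [Finsupp.notMem_support_iff] at hm
    simp [hm]

open scoped Classical in
/-- the formal element attached to a relation -/
noncomputable def cRel : Rel R M → N → (M →₀ N)
  | .add m n, h => Finsupp.single (m + n) h - Finsupp.single m h - Finsupp.single n h
  | .smul r m, h => Finsupp.single (r • m) h -
      Finsupp.single m ((φ.symm (MulOpposite.op r)) • h)

theorem ev_cRel (hε : ∀ (s : S) (f : N) (m : M), ε (s • f) m = ε f ((φ s).unop • m))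
    (z : M → M) (ρ : Rel R M) (h : N) : ev ε z (cRel φ ρ h) = ε h (ρ.eval z) := by
  cases ρ with
  | add m n => simp [cRel]
  | smul r m => simp [cRel, hε]

theorem mapRange_cRel (g : Module.End S N) (ρ : Rel R M) (h : N) :
    Finsupp.mapRange.addMonoidHom g.toAddMonoidHom (cRel φ ρ h) = cRel φ ρ (g h) := by
  cases ρ with
  | add m n =>
    simp only [cRel, map_sub]
    simp
  | smul r m =>
    simp only [cRel, map_sub]
    simp

theorem K_sigma (hI : Module.Injective (Module.End R M) I) [IsArtinian (Module.End R M) M]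
    (hε : ∀ (s : S) (f : N) (m : M), ε (s • f) m = ε f ((φ s).unop • m))
    (g : Module.End S N) (u : N →₀ M) (hu : u.sum (fun f m => ε f m) = 0) :
    u.sum (fun f m => ε (g f) m) = 0 := by
  classical
  obtain ⟨F₀, hF₀⟩ := exists_finite_relations (R := R) (fun f : u.support => u f.1)
  let Def : (M → M) →ₗ[Module.End R M] (F₀ → M) := LinearMap.pi (fun ρ => ρ.1.eval)
  let Fz : (M → M) →ₗ[Module.End R M] I :=
    ∑ f ∈ u.support, (ε f).comp (LinearMap.proj (u f))
  have hFz : ∀ z, Fz z = ∑ f ∈ u.support, ε f (z (u f)) := by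
    intro z
    simp [Fz, LinearMap.sum_apply]
  have hker : LinearMap.ker Def ≤ LinearMap.ker Fz := by
    intro z hz
    have hz' : ∀ ρ ∈ F₀, ρ.eval z = 0 := fun ρ hρ => congrFun (show Def z = 0 from hz) ⟨ρ, hρ⟩
    obtain ⟨e, he⟩ := hF₀ z hz'
    show Fz z = 0
    rw [hFz]
    have h1 : ∀ f ∈ u.support, ε f (z (u f)) = e • (ε f (u f)) := by
      intro f hf
      rw [← he ⟨f, hf⟩, ← map_smul]
      rfl
    rw [Finset.sum_congr rfl h1, ← Finset.smul_sum]
    have : ∑ f ∈ u.support, ε f (u f) = 0 := hu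
    rw [this, smul_zero]
  obtain ⟨H, hH⟩ := extend_of_ker_le hI Def Fz hker
  let hh : F₀ → N := fun ρ => ε.symm (H.comp (LinearMap.single (Module.End R M) (fun _ => M) ρ))
  have hHsum : ∀ w : F₀ → M, H w = ∑ ρ, ε (hh ρ) (w ρ) := by
    intro w
    conv_lhs => rw [← Finset.univ_sum_single w]
    rw [map_sum]
    refine Finset.sum_congr rfl fun ρ _ => ?_
    simp [hh]
  have key : ∑ f ∈ u.support, Finsupp.single (u f) f = ∑ ρ : F₀, cRel φ ρ.1 (hh ρ) := by
    rw [← sub_eq_zero]
    apply ev_injective ε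
    intro z
    rw [map_sub, map_sum, map_sum, sub_eq_zero]
    simp only [ev_single, ev_cRel φ ε hε]
    rw [← hFz, ← hH, hHsum]
    rfl
  have key2 := congrArg (Finsupp.mapRange.addMonoidHom g.toAddMonoidHom) key
  rw [map_sum, map_sum] at key2
  simp only [mapRange_cRel] at key2
  have key3 := congrArg (ev ε id) key2
  rw [map_sum, map_sum] at key3
  simp only [ev_cRel φ ε hε] at key3
  have h0 : ∀ ρ : Rel R M, ρ.eval (id : M → M) = 0 := fun ρ => ρ.eval_coe 1
  simp only [h0, map_zero, Finset.sum_const_zero] at key3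
  rw [Finsupp.sum, ← key3]
  refine Finset.sum_congr rfl fun f _ => ?_
  simp

/-- every endomorphism of `N` is given by postcomposition -/
theorem exists_post (hI : Module.Injective (Module.End R M) I) [IsArtinian (Module.End R M) M]
    (hε : ∀ (s : S) (f : N) (m : M), ε (s • f) m = ε f ((φ s).unop • m))
    (g : Module.End S N) : ∃ t : I →ₗ[Module.End R M] I, ∀ f m, ε (g f) m = t (ε f m) := by
  classical
  let e1 : (N →₀ M) →ₗ[Module.End R M] I := Finsupp.lsum ℤ (fun f => ε f)
  let e2 : (N →₀ M) →ₗ[Module.End R M] I := Finsupp.lsum ℤ (fun f => ε (g f))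
  obtain ⟨t, ht⟩ := extend_of_ker_le hI e1 e2 (by
    intro u hu
    have h1 : u.sum (fun f m => ε f m) = 0 := by
      have : e1 u = 0 := hu
      simpa [e1] using this
    have h2 := K_sigma φ ε hI hε g u h1
    show e2 u = 0
    simpa [e2] using h2)
  refine ⟨t, fun f m => ?_⟩
  have := ht (Finsupp.single f m)
  simp [e1, e2] at this
  exact this.symm

end

end Pool.Agent.Helper846
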