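import Mathlib

set_option autoImplicit false

namespace Pool.Agent.Helper846

universe u

theorem exists_injective_embedding (E : Type u) [Ring E] (L : Type u) [AddCommGroup L]
    [Module E L] :
    ∃ (Q : Type u) (_ : AddCommGroup Q) (_ : Module E Q), Module.Injective E Q ∧
      ∃ i : L →ₗ[E] Q, Function.Injective i := by
  let Q : ModuleCat.{u} E := CategoryTheory.Injective.under (ModuleCat.of E L)
  let i : ModuleCat.of E L ⟶ Q := CategoryTheory.Injective.ι (ModuleCat.of E L)
  refine ⟨Q, inferInstance, inferInstance, ?_, i.hom, ?_⟩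
  · exact Module.injective_module_of_injective_object E Q
      (inj := by
        show CategoryTheory.Injective (ModuleCat.of E Q)
        exact (inferInstance : CategoryTheory.Injective
          (CategoryTheory.Injective.under (ModuleCat.of E L))))
  · exact (ModuleCat.mono_iff_injective i).1 inferInstance

/-- injective retract -/
theorem injective_of_retract {E : Type u} [Ring E] {Q I : Type u} [AddCommGroup Q] [Module E Q]
    [AddCommGroup I] [Module E I] (hQ : Module.Injective E Q) (j : I →ₗ[E] Q) (r : Q →ₗ[E] I)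
    (h : ∀ x, r (j x) = x) : Module.Injective E I := by
  refine ⟨fun X Y _ _ _ _ f hf g => ?_⟩
  obtain ⟨h', hh'⟩ := hQ.out f hf (j.comp g)
  exact ⟨r.comp h', fun x => by simp [hh', h]⟩

/-- there is a maximal submodule meeting `I` trivially -/
theorem exists_max_disjoint {E : Type u} [Ring E] {Q : Type u} [AddCommGroup Q] [Module E Q]
    (I : Submodule E Q) : ∃ K : Submodule E Q, K ⊓ I = ⊥ ∧ ∀ K', K < K' → K' ⊓ I ≠ ⊥ := by
  obtain ⟨K, -, hK⟩ := zorn_le_nonempty₀ {K : Submodule E Q | K ⊓ I = ⊥} (by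
    intro c hc hchain y hy
    refine ⟨sSup c, ?_, fun z hz => le_sSup hz⟩
    show sSup c ⊓ I = ⊥
    rw [eq_bot_iff]
    rintro x ⟨hx1, hx2⟩
    rw [SetLike.mem_coe, Submodule.mem_sSup_of_directed ⟨y, hy⟩ hchain.directedOn] at hx1
    obtain ⟨K, hK, hxK⟩ := hx1
    have : x ∈ K ⊓ I := ⟨hxK, hx2⟩
    rw [show K ⊓ I = ⊥ from hc hK] at this
    exact this) ⊥ (by simp)
  refine ⟨K, hK.1, fun K' hlt h => ?_⟩
  exact absurd (hK.2 (show K' ∈ {K : Submodule E Q | K ⊓ I = ⊥} from h) hlt.le) (not_le_of_gt hlt)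

theorem exists_hull_simple (E : Type u) [Ring E] (L : Type u) [AddCommGroup L] [Module E L]
    [IsSimpleModule E L] :
    ∃ (I : Type u) (_ : AddCommGroup I) (_ : Module E I), Module.Injective E I ∧
      ∃ i : L →ₗ[E] I, Function.Injective i ∧
        ∀ W : Submodule E I, W ≠ ⊥ → LinearMap.range i ≤ W := by
  obtain ⟨Q, _, _, hQ, i, hi⟩ := exists_injective_embedding E L
  let L₀ : Submodule E Q := LinearMap.range i
  obtain ⟨I, hLI, hI⟩ := zorn_le_nonempty₀
    {I : Submodule E Q | L₀ ≤ I ∧ ∀ W : Submodule E Q, W ≤ I → W ≠ ⊥ → L₀ ≤ W} (by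
    intro c hc hchain y hy
    refine ⟨sSup c, ⟨(hc hy).1.trans (le_sSup hy), ?_⟩, fun z hz => le_sSup hz⟩
    intro W hW hW0
    obtain ⟨x, hx, hx0⟩ := (Submodule.ne_bot_iff _).1 hW0
    have hx1 := hW hx
    rw [Submodule.mem_sSup_of_directed ⟨y, hy⟩ hchain.directedOn] at hx1
    obtain ⟨K, hK, hxK⟩ := hx1
    have h1 : Submodule.span E {x} ≤ K := by
      rw [Submodule.span_singleton_le_iff_mem]; exact hxK
    have h2 : Submodule.span E {x} ≠ ⊥ := by
      intro h
      rw [Submodule.span_singleton_eq_bot] at h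
      exact hx0 h
    have h3 : Submodule.span E {x} ≤ W := by
      rw [Submodule.span_singleton_le_iff_mem]; exact hx
    exact ((hc hK).2 _ h1 h2).trans h3) L₀ ⟨le_rfl, by
      intro W hW hW0
      have hs : IsSimpleModule E L₀ := by
        exact IsSimpleModule.congr (LinearEquiv.ofInjective i hi).symm
      have hat : IsAtom L₀ := isSimpleModule_iff_isAtom.1 hs
      rcases hat.le_iff.1 hW with h | h
      · exact absurd h hW0
      · exact h.ge⟩
  have hI1 : L₀ ≤ I := hI.1.1
  have hI2 : ∀ W : Submodule E Q, W ≤ I → W ≠ ⊥ → L₀ ≤ W := hI.1.2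
  obtain ⟨K, hK1, hK2⟩ := exists_max_disjoint I
  -- the map I → Q/K
  let j : I →ₗ[E] (Q ⧸ K) := K.mkQ.comp I.subtype
  have hj : Function.Injective j := by
    rw [← LinearMap.ker_eq_bot, eq_bot_iff]
    intro x hx
    have h1 : (x : Q) ∈ K := by
      simpa [j] using hx
    have h2 : (x : Q) ∈ K ⊓ I := ⟨h1, x.2⟩
    rw [hK1] at h2
    simpa using h2
  obtain ⟨θ, hθ⟩ := hQ.out j hj I.subtype
  -- nonzero submodules of Q/K meet j(I)
  have hess : ∀ V : Submodule E (Q ⧸ K), V ≠ ⊥ → ∃ x : I, x ≠ 0 ∧ j x ∈ V := by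
    intro V hV
    have h1 : K < V.comap K.mkQ := by
      refine lt_of_le_of_ne ?_ ?_
      · intro x hx
        have : K.mkQ x = 0 := by simpa using hx
        show K.mkQ x ∈ V
        rw [this]; exact V.zero_mem
      · intro h
        apply hV
        rw [eq_bot_iff]
        intro v hv
        obtain ⟨x, rfl⟩ := K.mkQ_surjective v
        have : x ∈ K := by rw [h]; exact hv
        simpa using this
    obtain ⟨x, hx, hx0⟩ := (Submodule.ne_bot_iff _).1 (hK2 _ h1)
    exact ⟨⟨x, hx.2⟩, fun h => hx0 (congrArg Subtype.val h), hx.1⟩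
  have hθinj : Function.Injective θ := by
    rw [← LinearMap.ker_eq_bot]
    by_contra h
    obtain ⟨x, hx0, hx⟩ := hess _ h
    have h1 : θ (j x) = 0 := hx
    rw [hθ] at h1
    exact hx0 (Subtype.ext h1)
  have hIle : I ≤ LinearMap.range θ := by
    intro x hx
    exact ⟨j ⟨x, hx⟩, hθ ⟨x, hx⟩⟩
  have hrange : LinearMap.range θ ∈
      {I : Submodule E Q | L₀ ≤ I ∧ ∀ W : Submodule E Q, W ≤ I → W ≠ ⊥ → L₀ ≤ W} := by
    refine ⟨hI1.trans hIle, ?_⟩
    intro W hW hW0
    have hV : W.comap θ ≠ ⊥ := by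
      intro h
      obtain ⟨x, hx, hx0⟩ := (Submodule.ne_bot_iff _).1 hW0
      obtain ⟨v, rfl⟩ := hW hx
      have : v ∈ W.comap θ := hx
      rw [h] at this
      have hv : v = 0 := this
      apply hx0
      rw [hv, map_zero]
    obtain ⟨x, hx0, hx⟩ := hess _ hV
    have hx' : (x : Q) ∈ W := by
      have : θ (j x) ∈ W := hx
      rwa [hθ] at this
    have h1 : Submodule.span E {(x : Q)} ≤ I := by
      rw [Submodule.span_singleton_le_iff_mem]; exact x.2
    have h2 : Submodule.span E {(x : Q)} ≠ ⊥ := by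
      intro h
      rw [Submodule.span_singleton_eq_bot] at h
      exact hx0 (Subtype.ext h)
    have h3 : Submodule.span E {(x : Q)} ≤ W := by
      rw [Submodule.span_singleton_le_iff_mem]; exact hx'
    exact (hI2 _ h1 h2).trans h3
  have hle : LinearMap.range θ ≤ I := hI.2 hrange hIle
  let r : Q →ₗ[E] I := (θ.comp K.mkQ).codRestrict I (fun x => hle ⟨K.mkQ x, rfl⟩)
  have hr : ∀ x : I, r (I.subtype x) = x := by
    intro x
    apply Subtype.ext
    show θ (K.mkQ x) = x
    exact hθ x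
  refine ⟨I, inferInstance, inferInstance, injective_of_retract hQ I.subtype r hr,
    i.codRestrict I (fun x => hI1 ⟨x, rfl⟩), ?_, ?_⟩
  · intro x y hxy
    exact hi (congrArg Subtype.val hxy)
  · intro W hW
    have h1 : W.map I.subtype ≠ ⊥ := by
      intro h
      obtain ⟨x, hx, hx0⟩ := (Submodule.ne_bot_iff _).1 hW
      have h4 : (x : Q) ∈ W.map I.subtype := ⟨x, hx, rfl⟩
      rw [h] at h4
      exact hx0 (Subtype.ext h4)
    have h2 := hI2 _ (Submodule.map_subtype_le I W) h1
    rintro _ ⟨x, rfl⟩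
    obtain ⟨w, hw, hwx⟩ := h2 ⟨x, rfl⟩
    have : (i.codRestrict I (fun x => hI1 ⟨x, rfl⟩)) x = w := Subtype.ext hwx.symm
    rw [this]
    exact hw

end Pool.Agent.Helper846
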