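import Mathlib
import Pool.Agent.Helper846.Rel

set_option autoImplicit false

namespace Pool.Agent.Helper846

section points

variable {E M : Type*} [Ring E] [AddCommGroup M] [Module E M]

variable (E M) in
/-- a nonzero element of a simple subquotient -/
structure Pt where
  lo : Submodule E M
  hi : Submodule E M
  cov : lo ⋖ hi
  x : M
  hx : x ∈ hi
  hx' : x ∉ lo

theorem exists_smul_sub_mem {lo hi : Submodule E M} (cov : lo ⋖ hi) {z y : M} (hz : z ∈ hi)
    (hz' : z ∉ lo) (hy : y ∈ hi) : ∃ r : E, r • z - y ∈ lo := by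
  have h1 : lo < lo ⊔ Submodule.span E {z} := by
    refine lt_of_le_of_ne le_sup_left fun h => hz' ?_
    rw [h]
    exact (le_sup_right : Submodule.span E {z} ≤ _) (Submodule.mem_span_singleton_self z)
  have h2 : lo ⊔ Submodule.span E {z} ≤ hi :=
    sup_le cov.le (by rw [Submodule.span_singleton_le_iff_mem]; exact hz)
  have h3 : lo ⊔ Submodule.span E {z} = hi := by
    by_contra hne
    exact cov.2 h1 (lt_of_le_of_ne h2 hne)
  rw [← h3, Submodule.mem_sup] at hy
  obtain ⟨a, ha, b, hb, hab⟩ := hy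
  obtain ⟨r, hr⟩ := Submodule.mem_span_singleton.1 hb
  refine ⟨r, ?_⟩
  have : r • z - y = -a := by rw [hr, ← hab]; abel
  rw [this]
  exact lo.neg_mem ha

theorem nil_of_kill [IsArtinian E M] [IsNoetherian E M] [FaithfulSMul E M] (k : E)
    (hk : ∀ lo hi : Submodule E M, lo ⋖ hi → ∀ x ∈ hi, k • x ∈ lo) : IsNilpotent k := by
  have hWF : WellFounded ((· < ·) : Submodule E M → Submodule E M → Prop) := wellFounded_lt
  have key : ∀ Y : Submodule E M, ∃ n : ℕ, ∀ x ∈ Y, (k ^ n) • x = 0 := by
    intro Y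
    induction Y using hWF.induction with
    | _ Y ih =>
      rcases eq_or_ne Y ⊥ with rfl | hY
      · exact ⟨0, fun x hx => by
          have : x = 0 := hx
          simp [this]⟩
      · obtain ⟨Y', -, hcov⟩ := exists_le_covBy_of_lt (bot_lt_iff_ne_bot.2 hY)
        obtain ⟨n, hn⟩ := ih Y' hcov.lt
        refine ⟨n + 1, fun x hx => ?_⟩
        rw [pow_succ, mul_smul]
        exact hn _ (hk Y' Y hcov x hx)
  obtain ⟨n, hn⟩ := key ⊤
  refine ⟨n, ?_⟩
  apply FaithfulSMul.eq_of_smul_eq_smul (α := M)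
  intro x
  rw [hn x trivial, zero_smul]

end points

section main

variable {R M : Type*} [Ring R] [AddCommGroup M] [Module R M]

theorem exists_killer [IsArtinian (Module.End R M) M] (p q : Pt (Module.End R M) M)
    (e₀ : Module.End R M) (hp : e₀ • p.x ∈ p.lo) (hq : e₀ • q.x ∉ q.lo) :
    ∃ h : Module.End R M, h • p.x ∈ p.lo ∧ h • q.x - q.x ∈ q.lo ∧
      ∀ w : Pt (Module.End R M) M, (h * h - h) • w.x ∈ w.lo := by
  classical
  -- a first element
  obtain ⟨r₀, hr₀⟩ := exists_smul_sub_mem q.cov (q.hi.smul_mem e₀ q.hx) hq q.hx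
  obtain ⟨B, hpB, hB⟩ := zorn_subset_nonempty
    {B : Set (Pt (Module.End R M) M) | ∀ F : Finset (Pt (Module.End R M) M), (F : Set _) ⊆ B →
      ∃ e : Module.End R M, (∀ b ∈ F, e • b.x ∈ b.lo) ∧ e • q.x - q.x ∈ q.lo} (by
      intro c hc hchain hne
      refine ⟨⋃₀ c, ?_, fun s hs => Set.subset_sUnion_of_mem hs⟩
      intro F hF
      obtain ⟨s, hs, hs'⟩ := DirectedOn.exists_mem_subset_of_finite_of_subset_sUnion hne
        hchain.directedOn F.finite_toSet hF
      exact hc hs F hs') {p} (by
      intro F hF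
      refine ⟨r₀ * e₀, ?_, by rw [mul_smul]; exact hr₀⟩
      intro b hb
      have : b = p := hF hb
      subst this
      rw [mul_smul]
      exact b.lo.smul_mem _ hp)
  have hB1 := hB.1
  -- compactness
  obtain ⟨h, hh⟩ := end_compact (R := R) (M := M) (J := Option B)
    (fun j => match j with | none => q.x | some b => b.1.x)
    (fun j => match j with | none => q.x | some _ => 0)
    (fun j => match j with | none => q.lo | some b => b.1.lo) (by
      intro F
      obtain ⟨e, he1, he2⟩ := hB1 ((F.preimage some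
        (fun a _ b _ h => Option.some_injective _ h)).image Subtype.val) (by
          intro b hb
          simp only [Finset.coe_image, Set.mem_image] at hb
          obtain ⟨⟨b', hb'⟩, _, rfl⟩ := hb
          exact hb')
      refine ⟨e, ?_⟩
      rintro (_ | b) hj
      · exact he2
      · simp only [sub_zero]
        apply he1 b.1
        simp only [Finset.mem_image, Finset.mem_preimage]
        exact ⟨b, hj, rfl⟩)
  have hhq : h • q.x - q.x ∈ q.lo := hh none
  have hhB : ∀ b ∈ B, h • b.x ∈ b.lo := by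
    intro b hb
    have := hh (some ⟨b, hb⟩)
    simpa using this
  refine ⟨h, hhB p (hpB rfl), hhq, ?_⟩
  intro w
  by_cases hw : w ∈ B
  · have h1 := hhB w hw
    rw [sub_smul, mul_smul]
    exact w.lo.sub_mem (w.lo.smul_mem _ h1) h1
  · -- `insert w B` violates the property
    have h2 : ¬ (∀ F : Finset (Pt (Module.End R M) M), (F : Set _) ⊆ insert w B →
        ∃ e : Module.End R M, (∀ b ∈ F, e • b.x ∈ b.lo) ∧ e • q.x - q.x ∈ q.lo) := by
      intro h3
      exact hw (hB.2 h3 (Set.subset_insert _ _) (Set.mem_insert _ _))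
    push Not at h2
    obtain ⟨F, hF, hF2⟩ := h2
    have hclaimA : ∀ e : Module.End R M, (∀ b ∈ F.erase w, e • b.x ∈ b.lo) → e • w.x ∈ w.lo →
        e • q.x ∈ q.lo := by
      intro e he hew
      by_contra hcon
      obtain ⟨r, hr⟩ := exists_smul_sub_mem q.cov (q.hi.smul_mem e q.hx) hcon q.hx
      apply hF2 (r * e)
      · intro b hb
        rw [mul_smul]
        by_cases hbw : b = w
        · rw [hbw]; exact w.lo.smul_mem _ hew
        · exact b.lo.smul_mem _ (he b (Finset.mem_erase.2 ⟨hbw, hb⟩))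
      · rw [mul_smul]; exact hr
    have hI₀ : ∀ b ∈ F.erase w, h • b.x ∈ b.lo := by
      intro b hb
      rw [Finset.mem_erase] at hb
      rcases hF hb.2 with h | h
      · exact absurd h hb.1
      · exact hhB b h
    by_contra hcon
    obtain ⟨r, hr⟩ := exists_smul_sub_mem w.cov (w.hi.smul_mem (h * h - h) w.hx) hcon
      (w.hi.smul_mem h w.hx)
    have h4 := hclaimA (r * (h * h - h) - h) (by
      intro b hb
      have h5 := hI₀ b hb
      rw [sub_smul, mul_smul, sub_smul, mul_smul]
      exact b.lo.sub_mem (b.lo.smul_mem _ (b.lo.sub_mem (b.lo.smul_mem _ h5) h5)) h5) (by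
      rw [sub_smul, mul_smul]; exact hr)
    rw [sub_smul, mul_smul] at h4
    have h6 : (h * h - h) • q.x ∈ q.lo := by
      have : (h * h - h) • q.x = h • (h • q.x - q.x) := by
        rw [sub_smul, mul_smul, smul_sub]
      rw [this]
      exact q.lo.smul_mem _ hhq
    have h7 : h • q.x ∈ q.lo := by
      have := q.lo.sub_mem (q.lo.smul_mem r h6) h4
      simpa using this
    apply q.hx'
    have := q.lo.sub_mem h7 hhq
    simpa using this

theorem ann_le [IsArtinian (Module.End R M) M] [IsNoetherian (Module.End R M) M]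
    (hind : ∀ N₁ N₂ : Submodule R M, IsCompl N₁ N₂ → N₁ = ⊥ ∨ N₂ = ⊥)
    (p q : Pt (Module.End R M) M) (e₀ : Module.End R M) (hp : e₀ • p.x ∈ p.lo) :
    e₀ • q.x ∈ q.lo := by
  by_contra hq
  obtain ⟨h, hhp, hhq, hhK⟩ := exists_killer p q e₀ hp hq
  have hnil : IsNilpotent (h * h - h) := by
    apply nil_of_kill (M := M)
    intro lo hi hcov x hx
    by_cases hx' : x ∈ lo
    · exact lo.smul_mem _ hx'
    · exact hhK ⟨lo, hi, hcov, x, hx, hx'⟩
  obtain ⟨n, hn⟩ := hnil
  have hn1 : (h - h ^ 2) ^ (n + 1) = 0 := by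
    have : h - h ^ 2 = -(h * h - h) := by rw [pow_two]; abel
    rw [this, pow_succ, neg_pow, hn]; simp
  have hid := isIdempotentElem_one_sub_one_sub_pow_pow h (n + 1) hn1
  set f : Module.End R M := 1 - (1 - h ^ (n + 1)) ^ (n + 1) with hf
  -- powers of elements fixing a point
  have hfix : ∀ (w : Pt (Module.End R M) M) (a : Module.End R M), a • w.x - w.x ∈ w.lo →
      ∀ m : ℕ, a ^ m • w.x - w.x ∈ w.lo := by
    intro w a ha m
    induction m with
    | zero => simp
    | succ m ih =>
      have : a ^ (m + 1) • w.x - w.x = a ^ m • (a • w.x - w.x) + (a ^ m • w.x - w.x) := by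
        rw [pow_succ, mul_smul, smul_sub]; abel
      rw [this]
      exact w.lo.add_mem (w.lo.smul_mem _ ha) ih
  have hkill : ∀ (w : Pt (Module.End R M) M) (a : Module.End R M), a • w.x ∈ w.lo →
      ∀ m : ℕ, a ^ (m + 1) • w.x ∈ w.lo := by
    intro w a ha m
    rw [pow_succ, mul_smul]
    exact w.lo.smul_mem _ ha
  have hone_sub_fix : ∀ (w : Pt (Module.End R M) M) (a : Module.End R M), a • w.x ∈ w.lo →
      (1 - a) • w.x - w.x ∈ w.lo := by
    intro w a ha
    have : (1 - a) • w.x - w.x = -(a • w.x) := by rw [sub_smul, one_smul]; abel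
    rw [this]; exact w.lo.neg_mem ha
  have hone_sub_kill : ∀ (w : Pt (Module.End R M) M) (a : Module.End R M),
      a • w.x - w.x ∈ w.lo → (1 - a) • w.x ∈ w.lo := by
    intro w a ha
    have : (1 - a) • w.x = -(a • w.x - w.x) := by rw [sub_smul, one_smul]; abel
    rw [this]; exact w.lo.neg_mem ha
  have hfp : f • p.x ∈ p.lo := by
    apply hone_sub_kill
    apply hfix
    apply hone_sub_fix
    exact hkill p h hhp n
  have hfq : f • q.x - q.x ∈ q.lo := by
    apply hone_sub_fix
    apply hkill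
    apply hone_sub_kill
    exact hfix q h hhq (n + 1)
  have hcompl := LinearMap.IsIdempotentElem.isCompl hid
  rcases hind _ _ hcompl with h1 | h1
  · -- range = bot
    have : f = 0 := by
      ext m
      have : f m ∈ LinearMap.range f := ⟨m, rfl⟩
      rw [h1] at this
      simpa using this
    rw [this, zero_smul, zero_sub] at hfq
    exact q.hx' (by simpa using q.lo.neg_mem hfq)
  · have : f = 1 := by
      ext m
      have h3 : f m - m ∈ LinearMap.ker f := by
        rw [LinearMap.mem_ker, map_sub, sub_eq_zero]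
        exact LinearMap.congr_fun hid m
      rw [h1] at h3
      have : f m - m = 0 := h3
      rw [sub_eq_zero] at this
      simpa using this
    rw [this, one_smul] at hfp
    exact p.hx' hfp

/-- The endomorphism ring of an indecomposable endofinite module is local. -/
theorem mem_or_isUnit [IsArtinian (Module.End R M) M] [IsNoetherian (Module.End R M) M]
    (hind : ∀ N₁ N₂ : Submodule R M, IsCompl N₁ N₂ → N₁ = ⊥ ∨ N₂ = ⊥)
    (e : Module.End R M) : (∀ p : Pt (Module.End R M) M, e • p.x ∈ p.lo) ∨ IsUnit e := by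
  by_cases he : ∀ p : Pt (Module.End R M) M, e • p.x ∈ p.lo
  · exact Or.inl he
  right
  -- left inverses
  have hleft : ∀ (p : Pt (Module.End R M) M) (a : Module.End R M), a • p.x ∉ p.lo →
      ∃ s : Module.End R M, s * a = 1 := by
    intro p a ha
    obtain ⟨r, hr⟩ := exists_smul_sub_mem p.cov (p.hi.smul_mem a p.hx) ha p.hx
    have h1 : ∀ q : Pt (Module.End R M) M, (1 - r * a) • q.x ∈ q.lo := by
      intro q
      apply ann_le hind p q
      have : (1 - r * a) • p.x = -(r • (a • p.x) - p.x) := by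
        rw [sub_smul, one_smul, mul_smul]; abel
      rw [this]; exact p.lo.neg_mem hr
    have hnil : IsNilpotent (1 - r * a) := by
      apply nil_of_kill (M := M)
      intro lo hi hcov x hx
      by_cases hx' : x ∈ lo
      · exact lo.smul_mem _ hx'
      · exact h1 ⟨lo, hi, hcov, x, hx, hx'⟩
    have hu : IsUnit (r * a) := by
      have := hnil.isUnit_one_sub
      simpa using this
    obtain ⟨v, hv⟩ := hu.exists_left_inv
    exact ⟨v * r, by rw [mul_assoc]; exact hv⟩
  push Not at he
  obtain ⟨p, hp⟩ := he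
  obtain ⟨s, hs⟩ := hleft p e hp
  have hsp : s • p.x ∉ p.lo := by
    intro h
    have h2 := ann_le hind p ⟨p.lo, p.hi, p.cov, e • p.x, p.hi.smul_mem _ p.hx, hp⟩ s h
    have h3 : s • (e • p.x) ∈ p.lo := h2
    rw [← mul_smul, hs, one_smul] at h3
    exact p.hx' h3
  obtain ⟨s', hs'⟩ := hleft p s hsp
  have : s' = e := by
    calc s' = s' * (s * e) := by rw [hs, mul_one]
      _ = (s' * s) * e := by rw [mul_assoc]
      _ = e := by rw [hs', one_mul]
  rw [this] at hs'
  exact ⟨⟨e, s, hs', hs⟩, rfl⟩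

theorem exists_pt [IsNoetherian (Module.End R M) M] [Nontrivial M] :
    ∃ p : Pt (Module.End R M) M, p.hi = ⊤ := by
  have hlt : (⊥ : Submodule (Module.End R M) M) < ⊤ := bot_lt_top
  obtain ⟨Y', -, hcov⟩ := exists_le_covBy_of_lt hlt
  obtain ⟨x, -, hx⟩ := SetLike.exists_of_lt hcov.lt
  exact ⟨⟨Y', ⊤, hcov, x, trivial, hx⟩, rfl⟩

theorem mem_jacobson_iff_pt [IsArtinian (Module.End R M) M] [IsNoetherian (Module.End R M) M]
    [Nontrivial M] (hind : ∀ N₁ N₂ : Submodule R M, IsCompl N₁ N₂ → N₁ = ⊥ ∨ N₂ = ⊥)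
    (e : Module.End R M) :
    e ∈ Ring.jacobson (Module.End R M) ↔ ∀ p : Pt (Module.End R M) M, e • p.x ∈ p.lo := by
  constructor
  · intro he
    rcases mem_or_isUnit hind e with h | h
    · exact h
    · exfalso
      have h1 : Ring.jacobson (Module.End R M) = ⊤ := Ideal.eq_top_of_isUnit_mem _ he h
      exact (Ring.jacobson_lt_top (Module.End R M)).ne h1
  · intro he
    rw [← Ideal.jacobson_bot, Ideal.mem_jacobson_iff]
    intro y
    have hnil : IsNilpotent (y * e) := by
      apply nil_of_kill (M := M)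
      intro lo hi hcov x hx
      rw [mul_smul]
      by_cases hx' : x ∈ lo
      · exact lo.smul_mem _ (lo.smul_mem _ hx')
      · exact lo.smul_mem _ (he ⟨lo, hi, hcov, x, hx, hx'⟩)
    obtain ⟨v, hv⟩ := hnil.isUnit_one_add.exists_left_inv
    refine ⟨v, ?_⟩
    have : v * y * e + v - 1 = 0 := by
      rw [mul_assoc, ← mul_add_one, add_comm, hv, sub_self]
    rw [this]
    exact Submodule.zero_mem _

theorem mem_jacobson_or_isUnit [IsArtinian (Module.End R M) M]
    [IsNoetherian (Module.End R M) M]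
    [Nontrivial M] (hind : ∀ N₁ N₂ : Submodule R M, IsCompl N₁ N₂ → N₁ = ⊥ ∨ N₂ = ⊥)
    (e : Module.End R M) : e ∈ Ring.jacobson (Module.End R M) ∨ IsUnit e := by
  rw [mem_jacobson_iff_pt hind]
  exact mem_or_isUnit hind e

end main

end Pool.Agent.Helper846
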