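import Mathlib
import Pool.Agent.Helper846.Dual
import Pool.Agent.Helper846.Local
import Pool.Agent.Helper846.Hull

set_option autoImplicit false

namespace Pool.Agent.Helper846

universe u

/-- the property `finite over the centre` passes along surjective anti-homomorphisms -/
theorem center_finite_of_anti {A B : Type*} [Ring A] [Ring B] (ψ : A →+* Bᵐᵒᵖ)
    (hψ : Function.Surjective ψ) (h : Module.Finite (Subring.center A) A) :
    Module.Finite (Subring.center B) B := by
  classical
  obtain ⟨s, hs⟩ := h.fg_top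
  refine ⟨⟨s.image (fun a => (ψ a).unop), ?_⟩⟩
  rw [eq_top_iff]
  intro b _
  obtain ⟨a, ha⟩ := hψ (MulOpposite.op b)
  have hb : b = (ψ a).unop := by rw [ha]; rfl
  rw [hb]
  have ha' : a ∈ Submodule.span (Subring.center A) (s : Set A) := by rw [hs]; trivial
  clear hb ha
  induction ha' using Submodule.span_induction with
  | mem x hx => exact Submodule.subset_span (by simpa using ⟨x, hx, rfl⟩)
  | zero => simp
  | add x y _ _ hx hy =>
    rw [map_add, MulOpposite.unop_add]
    exact Submodule.add_mem _ hx hy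
  | smul c x _ hx =>
    have hc : (ψ (c : A)).unop ∈ Subring.center B := by
      rw [Subring.mem_center_iff]
      intro g
      obtain ⟨a', ha'⟩ := hψ (MulOpposite.op g)
      have h1 : g = (ψ a').unop := by rw [ha']; rfl
      have h2 := Subring.mem_center_iff.1 c.2 a'
      rw [h1, ← MulOpposite.unop_mul, ← MulOpposite.unop_mul, ← map_mul, ← map_mul, h2]
    have h3 : (ψ (c • x)).unop = (⟨(ψ (c : A)).unop, hc⟩ : Subring.center B) • (ψ x).unop := by
      show (ψ ((c : A) * x)).unop = (ψ (c : A)).unop * (ψ x).unop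
      rw [← MulOpposite.unop_mul, ← map_mul, Subring.mem_center_iff.1 c.2 x]
    rw [h3]
    exact Submodule.smul_mem _ _ hx

section

variable {R S : Type u} [Ring R] [Ring S] (φ : S ≃+* Rᵐᵒᵖ) {M : Type u} [AddCommGroup M]
  [Module R M] {I : Type u} [AddCommGroup I] [Module (Module.End R M) I]
  {N : Type u} [AddCommGroup N] [Module S N] (ε : N ≃+ (M →ₗ[Module.End R M] I))

/-- postcomposition -/
def post (hε : ∀ (s : S) (f : N) (m : M), ε (s • f) m = ε f ((φ s).unop • m))
    (t : I →ₗ[Module.End R M] I) : Module.End S N where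
  toFun f := ε.symm (t.comp (ε f))
  map_add' f g := by
    apply ε.injective
    simp only [map_add, AddEquiv.apply_symm_apply]
    ext m
    simp
  map_smul' s f := by
    apply ε.injective
    ext m
    simp [hε]

theorem post_apply (hε : ∀ (s : S) (f : N) (m : M), ε (s • f) m = ε f ((φ s).unop • m))
    (t : I →ₗ[Module.End R M] I) (f : N) (m : M) :
    ε (post φ ε hε t f) m = t (ε f m) := by
  simp [post]

theorem ext_N {f g : N} (h : ∀ m, ε f m = ε g m) : f = g :=
  ε.injective (LinearMap.ext h)

theorem t_bij (hI : Module.Injective (Module.End R M) I)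
    {L : Type u} [AddCommGroup L] [Module (Module.End R M) L] [IsSimpleModule (Module.End R M) L]
    (i : L →ₗ[Module.End R M] I)
    (hess : ∀ W : Submodule (Module.End R M) I, W ≠ ⊥ → LinearMap.range i ≤ W)
    (t : I →ₗ[Module.End R M] I) (l : L) (hl : t (i l) ≠ 0) :
    ∃ s : I →ₗ[Module.End R M] I, (∀ x, s (t x) = x) ∧ (∀ x, t (s x) = x) := by
  have hker : LinearMap.ker t = ⊥ := by
    by_contra h
    have := hess _ h ⟨l, rfl⟩
    exact hl this
  obtain ⟨s, hs⟩ := hI.out t (LinearMap.ker_eq_bot.1 hker) LinearMap.id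
  have hs' : ∀ x, s (t x) = x := fun x => by simpa using hs x
  have hkers : LinearMap.ker s = ⊥ := by
    by_contra h
    have h1 : LinearMap.range t ≠ ⊥ := by
      intro h2
      apply hl
      have : t (i l) ∈ LinearMap.range t := ⟨_, rfl⟩
      rw [h2] at this
      exact this
    have h3 := hess _ h ⟨l, rfl⟩
    obtain ⟨y, hy⟩ := hess _ h1 ⟨l, rfl⟩
    have h4 : s (i l) = 0 := h3
    rw [← hy, hs'] at h4
    rw [h4, map_zero] at hy
    apply hl
    rw [← hy, map_zero]
  refine ⟨s, hs', fun x => ?_⟩
  apply LinearMap.ker_eq_bot.1 hkers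
  rw [hs']

theorem isSimple_quot [IsArtinian (Module.End R M) M] [IsNoetherian (Module.End R M) M]
    [Nontrivial M] (hind : ∀ N₁ N₂ : Submodule R M, IsCompl N₁ N₂ → N₁ = ⊥ ∨ N₂ = ⊥) :
    IsSimpleModule (Module.End R M) (Module.End R M ⧸ Ring.jacobson (Module.End R M)) := by
  rw [isSimpleModule_iff_isCoatom]
  refine ⟨(Ring.jacobson_lt_top (Module.End R M)).ne, ?_⟩
  intro W hW
  obtain ⟨w, hw, hw'⟩ := SetLike.exists_of_lt hW
  rcases mem_jacobson_or_isUnit hind w with h | h
  · exact absurd h hw'
  · exact Ideal.eq_top_of_isUnit_mem W hw h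

/-- right multiplication on the residue ring -/
def rmul (E : Type u) [Ring E] (J : Ideal E) [J.IsTwoSided] (d : E ⧸ J) :
    (E ⧸ J) →ₗ[E] (E ⧸ J) where
  toFun a := a * d
  map_add' a b := add_mul a b d
  map_smul' e a := by
    obtain ⟨a, rfl⟩ := Ideal.Quotient.mk_surjective a
    obtain ⟨d, rfl⟩ := Ideal.Quotient.mk_surjective d
    show Ideal.Quotient.mk J (e * a * d) = Ideal.Quotient.mk J (e * (a * d))
    rw [mul_assoc]

theorem exists_base (hI : Module.Injective (Module.End R M) I)
    [IsArtinian (Module.End R M) M] [IsNoetherian (Module.End R M) M] [Nontrivial M]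
    (hind : ∀ N₁ N₂ : Submodule R M, IsCompl N₁ N₂ → N₁ = ⊥ ∨ N₂ = ⊥)
    (i : (Module.End R M ⧸ Ring.jacobson (Module.End R M)) →ₗ[Module.End R M] I) :
    ∃ (f₀ : N) (x₀ : M), ε f₀ x₀ = i 1 := by
  obtain ⟨p, -⟩ := exists_pt (R := R) (M := M)
  obtain ⟨H, hH⟩ := extend_of_ker_le hI
    (LinearMap.toSpanSingleton (Module.End R M) M p.x)
    (i.comp (Submodule.mkQ (Ring.jacobson (Module.End R M)))) (by
      intro e he
      have h1 : e • p.x = 0 := by simpa using he
      have h2 : e ∈ Ring.jacobson (Module.End R M) := by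
        rcases mem_jacobson_or_isUnit hind e with h | h
        · exact h
        · exfalso
          obtain ⟨v, hv⟩ := h.exists_left_inv
          apply p.hx'
          have : p.x = v • (e • p.x) := by rw [← mul_smul, hv, one_smul]
          rw [this, h1, smul_zero]
          exact p.lo.zero_mem
      show i (Submodule.mkQ _ e) = 0
      have h3 : Submodule.mkQ (Ring.jacobson (Module.End R M)) e = 0 :=
        (Submodule.Quotient.mk_eq_zero _).2 h2
      rw [h3, map_zero])
  refine ⟨ε.symm H, p.x, ?_⟩
  rw [AddEquiv.apply_symm_apply]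
  have := hH 1
  simp only [LinearMap.toSpanSingleton_apply, one_smul] at this
  rw [this]
  rfl

theorem exists_chi (hI : Module.Injective (Module.End R M) I)
    [IsArtinian (Module.End R M) M] [IsNoetherian (Module.End R M) M] [Nontrivial M]
    (hind : ∀ N₁ N₂ : Submodule R M, IsCompl N₁ N₂ → N₁ = ⊥ ∨ N₂ = ⊥)
    (hε : ∀ (s : S) (f : N) (m : M), ε (s • f) m = ε f ((φ s).unop • m))
    (i : (Module.End R M ⧸ Ring.jacobson (Module.End R M)) →ₗ[Module.End R M] I)
    (hi : Function.Injective i)
    (hess : ∀ W : Submodule (Module.End R M) I, W ≠ ⊥ → LinearMap.range i ≤ W) :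
    ∃ χ : Module.End S N →+* (Module.End R M ⧸ Ring.jacobson (Module.End R M))ᵐᵒᵖ,
      Function.Surjective χ ∧ (∀ g, χ g ≠ 0 → IsUnit g) := by
  have hsimple := isSimple_quot hind
  obtain ⟨f₀, x₀, h0⟩ := exists_base ε hI hind i
  have hone : (1 : Module.End R M ⧸ Ring.jacobson (Module.End R M)) ≠ 0 := by
    have : Nontrivial (Module.End R M ⧸ Ring.jacobson (Module.End R M)) :=
      IsSimpleModule.nontrivial (Module.End R M) _
    exact one_ne_zero
  have hi1 : i 1 ≠ 0 := fun h => hone (hi (by rw [h, map_zero]))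
  have hmk : ∀ e : Module.End R M, i (Ideal.Quotient.mk _ e) = e • i 1 := by
    intro e
    rw [← map_smul]
    have h9 : (Ideal.Quotient.mk _ e : Module.End R M ⧸ Ring.jacobson (Module.End R M)) =
        Ideal.Quotient.mk _ (e * 1) := by rw [mul_one]
    exact congrArg i h9
  have h1 : ∀ g : Module.End S N, ∃ d, ε (g f₀) x₀ = i d := by
    intro g
    obtain ⟨t, ht⟩ := exists_post φ ε hI hε g
    rw [ht, h0]
    by_cases h2 : t (i 1) = 0
    · exact ⟨0, by rw [h2, map_zero]⟩
    · have h3 : Submodule.span (Module.End R M) {t (i 1)} ≠ ⊥ := by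
        intro h; rw [Submodule.span_singleton_eq_bot] at h; exact h2 h
      obtain ⟨e, he⟩ := Submodule.mem_span_singleton.1 (hess _ h3 ⟨1, rfl⟩)
      rcases mem_jacobson_or_isUnit hind e with h | h
      · exfalso
        apply hi1
        rw [← he, ← map_smul, ← hmk, Ideal.Quotient.eq_zero_iff_mem.2 h, map_zero, map_zero]
      · obtain ⟨v, hv⟩ := h.exists_left_inv
        refine ⟨Ideal.Quotient.mk _ v, ?_⟩
        have h8 : t (i 1) = v • (e • t (i 1)) := by rw [← mul_smul, hv, one_smul]
        rw [hmk, h8, he]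
  choose d hd using h1
  have hdadd : ∀ g g', d (g + g') = d g + d g' := by
    intro g g'
    apply hi
    rw [map_add, ← hd, ← hd, ← hd, LinearMap.add_apply, map_add, LinearMap.add_apply]
  have hdmul : ∀ g g', d (g * g') = d g' * d g := by
    intro g g'
    obtain ⟨t, ht⟩ := exists_post φ ε hI hε g
    obtain ⟨e', he'⟩ := Ideal.Quotient.mk_surjective (d g')
    apply hi
    rw [← hd, Module.End.mul_apply, ht, hd, ← he', hmk, map_smul]
    have h4 : t (i 1) = i (d g) := by rw [← hd, ht, h0]
    rw [h4, ← map_smul]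
    obtain ⟨a, ha⟩ := Ideal.Quotient.mk_surjective (d g)
    rw [← ha]
    exact congrArg i rfl
  have hdone : d 1 = 1 := by
    apply hi
    rw [← hd, Module.End.one_apply, h0]
  have hdzero : d 0 = 0 := by
    have := hdadd 0 0
    simpa using this
  refine ⟨{ toFun := fun g => MulOpposite.op (d g)
            map_one' := by rw [hdone]; rfl
            map_mul' := fun g g' => by rw [hdmul]; rfl
            map_zero' := by rw [hdzero]; rfl
            map_add' := fun g g' => by rw [hdadd]; rfl }, ?_, ?_⟩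
  · intro b
    obtain ⟨t, ht⟩ := hI.out i hi (i.comp (rmul _ _ b.unop))
    refine ⟨post φ ε hε t, ?_⟩
    apply MulOpposite.unop_injective
    show d (post φ ε hε t) = b.unop
    apply hi
    rw [← hd, post_apply, h0, ht]
    show i (1 * b.unop) = _
    rw [one_mul]
  · intro g hg
    have hg' : d g ≠ 0 := fun h => hg (by
      show MulOpposite.op (d g) = 0
      rw [h]; rfl)
    obtain ⟨t, ht⟩ := exists_post φ ε hI hε g
    have h5 : t (i 1) ≠ 0 := by
      rw [← h0, ← ht, hd]
      intro h
      apply hg'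
      apply hi
      rw [h, map_zero]
    obtain ⟨s, hs1, hs2⟩ := t_bij hI i hess t 1 h5
    refine ⟨⟨g, post φ ε hε s, ?_, ?_⟩, rfl⟩
    · ext f
      apply ext_N ε
      intro m
      rw [Module.End.mul_apply, ht, post_apply, hs2, Module.End.one_apply]
    · ext f
      apply ext_N ε
      intro m
      rw [Module.End.mul_apply, post_apply, ht, hs1, Module.End.one_apply]

/-- the annihilator in `M` of a submodule of `N` -/
def annM (W : Submodule (Module.End S N) N) : Submodule (Module.End R M) M :=
  ⨅ f : W, LinearMap.ker (ε (f : N))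

theorem mem_annM (W : Submodule (Module.End S N) N) (m : M) :
    m ∈ annM ε W ↔ ∀ f ∈ W, ε f m = 0 := by
  simp [annM, Submodule.mem_iInf]

theorem mem_of_annM (hI : Module.Injective (Module.End R M) I) [IsArtinian (Module.End R M) M]
    (hε : ∀ (s : S) (f : N) (m : M), ε (s • f) m = ε f ((φ s).unop • m))
    (W : Submodule (Module.End S N) N) (f : N) (hf : ∀ m ∈ annM ε W, ε f m = 0) : f ∈ W := by
  classical
  let inf : Finset W → Submodule (Module.End R M) M := fun F => ⨅ f ∈ F, LinearMap.ker (ε (f : N))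
  have hinf : ∀ (F : Finset W) (m : M), m ∈ inf F ↔ ∀ f ∈ F, ε (f : N) m = 0 := by
    intro F m
    simp [inf, Submodule.mem_iInf]
  have hWF : WellFounded ((· < ·) : Submodule (Module.End R M) M →
      Submodule (Module.End R M) M → Prop) := wellFounded_lt
  obtain ⟨_, ⟨F₀, rfl⟩, hmin⟩ := hWF.has_min (Set.range inf) ⟨_, ∅, rfl⟩
  have hle : inf F₀ ≤ annM ε W := by
    intro m hm
    rw [mem_annM]
    intro f' hf'
    have h1 : inf (insert ⟨f', hf'⟩ F₀) ≤ inf F₀ := by
      intro x hx
      rw [hinf] at hx ⊢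
      exact fun f hf => hx f (Finset.mem_insert_of_mem hf)
    have h2 : inf (insert ⟨f', hf'⟩ F₀) = inf F₀ := by
      by_contra hne
      exact hmin _ ⟨_, rfl⟩ (lt_of_le_of_ne h1 hne)
    rw [← h2, hinf] at hm
    exact hm ⟨f', hf'⟩ (Finset.mem_insert_self _ _)
  let Def : M →ₗ[Module.End R M] (F₀ → I) := LinearMap.pi (fun ρ => ε (ρ.1 : N))
  obtain ⟨H, hH⟩ := extend_of_ker_le hI Def (ε f) (by
    intro m hm
    have h3 : m ∈ inf F₀ := by
      rw [hinf]
      intro f' hf'
      exact congrFun (show Def m = 0 from hm) ⟨f', hf'⟩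
    exact hf m (hle h3))
  let tt : F₀ → (I →ₗ[Module.End R M] I) :=
    fun ρ => H.comp (LinearMap.single (Module.End R M) (fun _ => I) ρ)
  have hHsum : ∀ w : F₀ → I, H w = ∑ ρ, tt ρ (w ρ) := by
    intro w
    conv_lhs => rw [← Finset.univ_sum_single w]
    rw [map_sum]
    refine Finset.sum_congr rfl fun ρ _ => ?_
    simp [tt]
  have hfeq : f = ∑ ρ : F₀, post φ ε hε (tt ρ) (ρ.1 : N) := by
    apply ext_N ε
    intro m
    rw [map_sum, LinearMap.sum_apply, ← hH, hHsum]
    refine Finset.sum_congr rfl fun ρ _ => ?_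
    rw [post_apply]
    rfl
  rw [hfeq]
  exact Submodule.sum_mem _ fun ρ _ => W.smul_mem (post φ ε hε (tt ρ)) ρ.1.2

theorem finiteLength_N (hI : Module.Injective (Module.End R M) I)
    [IsArtinian (Module.End R M) M] [IsNoetherian (Module.End R M) M]
    (hε : ∀ (s : S) (f : N) (m : M), ε (s • f) m = ε f ((φ s).unop • m)) :
    IsFiniteLength (Module.End S N) N := by
  have hanti : ∀ W W' : Submodule (Module.End S N) N, W < W' → annM ε W' < annM ε W := by
    intro W W' h
    refine lt_of_le_of_ne ?_ ?_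
    · intro m hm
      rw [mem_annM] at hm ⊢
      exact fun f hf => hm f (h.le hf)
    · intro heq
      obtain ⟨f, hf, hf'⟩ := SetLike.exists_of_lt h
      apply hf'
      apply mem_of_annM φ ε hI hε W f
      intro m hm
      rw [← heq, mem_annM] at hm
      exact hm f hf
  rw [isFiniteLength_iff_isNoetherian_isArtinian]
  constructor
  · rw [isNoetherian_iff]
    exact Subrelation.wf (fun {a b} h => hanti b a h) (InvImage.wf (annM ε)
      (wellFounded_lt : WellFounded ((· < ·) : Submodule (Module.End R M) M →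
      Submodule (Module.End R M) M → Prop)))
  · rw [isArtinian_iff]
    exact Subrelation.wf (fun {a b} h => hanti a b h) (InvImage.wf (annM ε)
      (wellFounded_gt : WellFounded ((· > ·) : Submodule (Module.End R M) M →
      Submodule (Module.End R M) M → Prop)))

end

end Pool.Agent.Helper846
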