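import Mathlib
import Pool.Agent.Helper846.Chi

set_option autoImplicit false

namespace Pool.Agent.Helper846

universe u

theorem center_finite_of_finite (k A : Type*) [CommRing k] [Ring A] [Algebra k A]
    [h : Module.Finite k A] : Module.Finite (Subring.center A) A := by
  obtain ⟨s, hs⟩ := h.fg_top
  refine ⟨⟨s, ?_⟩⟩
  rw [eq_top_iff]
  intro a _
  have ha : a ∈ Submodule.span k (s : Set A) := by rw [hs]; trivial
  induction ha using Submodule.span_induction with
  | mem x hx => exact Submodule.subset_span hx
  | zero => exact Submodule.zero_mem _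
  | add x y _ _ hx hy => exact Submodule.add_mem _ (hx trivial) (hy trivial)
  | smul c x _ hx =>
    have hc : algebraMap k A c ∈ Subring.center A := by
      rw [Subring.mem_center_iff]
      intro g
      exact (Algebra.commutes c g).symm
    have h3 : c • x = (⟨algebraMap k A c, hc⟩ : Subring.center A) • x := by
      rw [Algebra.smul_def]; rfl
    rw [h3]
    exact Submodule.smul_mem _ _ (hx trivial)

theorem end_center_finite (k : Type*) {S N : Type*} [CommRing k] [IsNoetherianRing k] [Ring S]
    [Algebra k S] [Module.Finite k S] [AddCommGroup N] [Module S N] [hf : Module.Finite S N] :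
    Module.Finite (Subring.center (Module.End S N)) (Module.End S N) := by
  let : Module k N := Module.compHom N (algebraMap k S)
  have hsm : ∀ (c : k) (n : N), c • n = algebraMap k S c • n := fun _ _ => rfl
  have : IsScalarTower k S N := ⟨fun c s n => by
    rw [hsm, Algebra.smul_def, mul_smul]⟩
  have : SMulCommClass S k N := ⟨fun s c n => by
    rw [hsm, hsm, ← mul_smul, ← mul_smul, Algebra.commutes]⟩
  have : Module.Finite k N := Module.Finite.trans S N
  have : IsNoetherian k N := isNoetherian_of_isNoetherianRing_of_finite k N
  obtain ⟨s, hs⟩ := hf.fg_top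
  let evs : Module.End S N →ₗ[k] (s → N) :=
    { toFun := fun g x => g x
      map_add' := fun g g' => rfl
      map_smul' := fun c g => rfl }
  have hinj : Function.Injective evs := by
    intro g g' hgg
    have hset : Set.EqOn g g' (s : Set N) := fun x hx => congrFun hgg ⟨x, hx⟩
    exact LinearMap.ext_on hs hset
  have : IsNoetherian k (Module.End S N) := isNoetherian_of_injective evs hinj
  have : Module.Finite k (Module.End S N) := inferInstance
  exact center_finite_of_finite k (Module.End S N)

theorem transfer (k : Type*) [CommRing k] [IsNoetherianRing k] {R S : Type u} [Ring R] [Ring S]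
    [Algebra k S] [Module.Finite k S] (φ : S ≃+* Rᵐᵒᵖ) (M : Type u) [AddCommGroup M] [Module R M]
    [Nontrivial M] (hind : ∀ N₁ N₂ : Submodule R M, IsCompl N₁ N₂ → N₁ = ⊥ ∨ N₂ = ⊥)
    (hfl : IsFiniteLength (Module.End R M) M)
    (hnf : ¬ Module.Finite
      (Subring.center (Module.End R M ⧸ Ring.jacobson (Module.End R M)))
      (Module.End R M ⧸ Ring.jacobson (Module.End R M))) :
    ∃ (N : Type u) (_ : AddCommGroup N) (_ : Module S N),
      Nontrivial N ∧
      (∀ N₁ N₂ : Submodule S N, IsCompl N₁ N₂ → N₁ = ⊥ ∨ N₂ = ⊥) ∧
      IsFiniteLength (Module.End S N) N ∧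
      ¬ Module.Finite S N ∧
      ¬ Module.Finite
        (Subring.center (Module.End S N ⧸ Ring.jacobson (Module.End S N)))
        (Module.End S N ⧸ Ring.jacobson (Module.End S N)) := by
  obtain ⟨hnoeth, hart⟩ := isFiniteLength_iff_isNoetherian_isArtinian.1 hfl
  have hsimple := isSimple_quot hind
  obtain ⟨I, _, _, hI, i, hi, hess⟩ := exists_hull_simple (Module.End R M)
    (Module.End R M ⧸ Ring.jacobson (Module.End R M))
  let modS : Module S (M →ₗ[Module.End R M] I) :=
    { smul := fun s f => f.comp (lsm (φ s).unop)
      one_smul := fun f => by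
        ext m
        show f ((φ 1).unop • m) = f m
        rw [map_one, MulOpposite.unop_one, one_smul]
      mul_smul := fun s s' f => by
        ext m
        show f ((φ (s * s')).unop • m) = f ((φ s').unop • ((φ s).unop • m))
        rw [map_mul, MulOpposite.unop_mul, mul_smul]
      smul_zero := fun s => by
        ext m
        rfl
      smul_add := fun s f g => by
        ext m
        rfl
      add_smul := fun s s' f => by
        ext m
        show f ((φ (s + s')).unop • m) = f ((φ s).unop • m) + f ((φ s').unop • m)
        rw [map_add, MulOpposite.unop_add, add_smul, map_add]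
      zero_smul := fun f => by
        ext m
        show f ((φ 0).unop • m) = 0
        rw [map_zero, MulOpposite.unop_zero, zero_smul, map_zero] }
  let ε : (M →ₗ[Module.End R M] I) ≃+ (M →ₗ[Module.End R M] I) := AddEquiv.refl _
  have hε : ∀ (s : S) (f : M →ₗ[Module.End R M] I) (m : M),
      ε (s • f) m = ε f ((φ s).unop • m) := fun s f m => rfl
  obtain ⟨χ, hχs, hχu⟩ := exists_chi φ ε hI hind hε i hi hess
  obtain ⟨f₀, x₀, h0⟩ := exists_base ε hI hind i
  have hntD : Nontrivial (Module.End R M ⧸ Ring.jacobson (Module.End R M)) :=
    IsSimpleModule.nontrivial (Module.End R M) _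
  have hi1 : i 1 ≠ 0 := fun h => one_ne_zero (hi (by rw [h, map_zero]))
  have hf₀ : f₀ ≠ 0 := by
    rintro rfl
    apply hi1
    rw [← h0]
    rfl
  have hntN : Nontrivial (M →ₗ[Module.End R M] I) := ⟨f₀, 0, hf₀⟩
  have hchione : ∀ g : Module.End S (M →ₗ[Module.End R M] I), IsUnit g ∨ IsUnit (1 - g) := by
    intro g
    by_cases hg : χ g = 0
    · right
      apply hχu
      rw [map_sub, hg, map_one, sub_zero]
      exact one_ne_zero
    · exact Or.inl (hχu g hg)
  refine ⟨M →ₗ[Module.End R M] I, inferInstance, modS, hntN, ?_, finiteLength_N φ ε hI hε,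
    ?_, ?_⟩
  · intro N₁ N₂ hc
    have hid := Submodule.isIdempotentElem_projection hc
    rcases hchione (N₁.projection N₂ hc) with h | h
    · right
      have h1 : N₁.projection N₂ hc = 1 := (IsIdempotentElem.iff_eq_one_of_isUnit h).1 hid
      rw [← Submodule.ker_projection hc, h1]
      exact LinearMap.ker_id
    · left
      have h1 : 1 - N₁.projection N₂ hc = 1 :=
        (IsIdempotentElem.iff_eq_one_of_isUnit h).1 hid.one_sub
      have h2 : N₁.projection N₂ hc = 0 := by
        rw [sub_eq_self] at h1
        exact h1
      rw [← Submodule.range_projection hc, h2]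
      exact LinearMap.range_zero
  · intro hfin
    apply hnf
    exact center_finite_of_anti χ hχs (end_center_finite k)
  · intro hfin
    apply hnf
    have hle : ∀ g ∈ Ring.jacobson (Module.End S (M →ₗ[Module.End R M] I)), χ g = 0 := by
      intro g hg
      by_contra h
      have h1 := Ideal.eq_top_of_isUnit_mem _ hg (hχu g h)
      exact (Ring.jacobson_lt_top (Module.End S (M →ₗ[Module.End R M] I))).ne h1
    exact center_finite_of_anti (Ideal.Quotient.lift _ χ hle)
      (Ideal.Quotient.lift_surjective_of_surjective _ hle hχs) hfin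

end Pool.Agent.Helper846
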